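import Pool.Agent.Q284.SZ.Ord
import Pool.Agent.Q284.SL.All

/-!
# Project SZ: prescribed orders at the center for all abelian twists, with the Riemann hypothesis
-/

set_option autoImplicit false

open Finset Polynomial ComplexConjugate

namespace Pool.Agent.Q284.SZ

open Pool.Agent.Q284.PS (Prim Hay CM PD PI qq mem_PI norm_le_one Place absPow Nice Tempered
  RankinSelbergConverges hay_cm)
open Pool.Agent.Q284.PX (SelfDual AF ef Ls gen_nice ef_zero absPow_eq norm_z)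
open Pool.Agent.Q284.GE
open Pool.Agent.Q284.SL
open Pool.Agent.Q166.SL (fc fc_eval fc_map pr pr_uni pr_deg fc_ne norm_ne)
open Pool.Agent.Q38.SL (star_circle pat_eval_div deg_lt star_deg eval_conj)

/-- the statement with a selection -/
theorem selStm : SelStm :=
  t_sel gens Pool.Agent.Q195.GE.t_EXP2 Pool.Agent.Q195.GE.t_NUM2 Pool.Agent.Q96.GE.t_TGT Pool.Agent.Q38.SL.t_PAT
    _root_.Q211.SL.t_PLO _root_.Q211.SL.t_NPW
    (Pool.Agent.Q198.GE.t_LFB Pool.Agent.Q150.GE.t_CIR Pool.Agent.Q96.GE.t_TGT) Pool.Agent.Q224.GE.t_LGD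
    Pool.Agent.Q237.PX.t_AFM Pool.Agent.Q92.PS.t_EUL Pool.Agent.Q92.PS.t_DSUM Pool.Agent.Q224.GE.t_MAS
    (Pool.Agent.Q224.GE.t_EUC Pool.Agent.Q53.GE.t_PLB) Pool.Agent.Q224.GE.t_PSG

theorem pr_map (n : ℕ) (w : ℕ → ℂ) : (pr n w).map (starRingEnd ℂ) = pr n (fun j => conj (w j)) := by
  unfold pr
  rw [Polynomial.map_prod]
  exact prod_congr rfl fun j _ => fc_map (w j)

theorem crit_conj (q h : ℕ) (y : ℝ) (A : ℂ[X]) : crit q h y (A.map (starRingEnd ℂ)) = conj (crit q h (-y) A) := by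
  unfold crit
  rw [eval_conj, conj_pt, map_div₀, map_mul, map_pow, Complex.conj_conj, conj_pt, neg_neg]

theorem crit_conj_zero (q h : ℕ) (A : ℂ[X]) : crit q h 0 (A.map (starRingEnd ℂ)) = conj (crit q h 0 A) := by
  rw [crit_conj, neg_zero]

/-- the final statement -/
def CenStm : Prop := ∀ n R : ℕ, 4 ≤ n → ∃ M₀ : ℕ, 3 ≤ M₀ ∧
  ∀ (F : Type) [Field F] [Fintype F] (ν M : ℕ), 9 ≤ ν → M₀ ≤ M →
  ∀ (h m : (F[X] → ℂ) → ℕ) (ε : (F[X] → ℂ) → ℂ),
  (∀ (Q : F[X]) (l : ℕ) (χ : F[X] → ℂ), Prim Q l χ →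
    ν * (Q.natDegree + max M (l + 1) - 2) ≤ h χ ∧ h (fun f => conj (χ f)) = h χ) →
  (∀ χ, m χ ≤ R ∧ m (fun f => conj (χ f)) = m χ) →
  (∀ χ, ‖ε χ‖ = 1 ∧ ε (fun f => conj (χ f)) = conj (ε χ)) →
  (∀ χ, (fun f => conj (χ f)) = χ → ε χ = (-1) ^ m χ) →
  ∃ α : F[X] → Fin n → ℂ, Tempered α ∧ SelfDual α ∧
    (∀ P : F[X], P.Monic → Irreducible P →
      ‖∑ j, α P j‖ ≤ (Fintype.card F : ℝ) ^ (-(9 / 10 * (1 / 2 - 4 / (ν : ℝ)) * P.natDegree))) ∧
    ∀ (Q : F[X]) (l : ℕ) (χ : F[X] → ℂ), Prim Q l χ → ∃ L : ℂ → ℂ,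
      Nice (Fintype.card F) ((R + 2) * h χ) (ε χ) L ∧ RiemannHypothesis L ∧
      analyticOrderAt L (1 / 2) = m χ ∧
      ∀ s : ℂ, 1 - 9 / 10 * (1 / 2 - 4 / (ν : ℝ)) < s.re →
        HasProd (fun P : Place F => ∏ j, (1 - α P.1 j * (χ P.1 * absPow P.1 s))⁻¹) (L s)

theorem cenStm : CenStm := by
  classical
  intro n R hn
  obtain ⟨M₀, hM₀, H⟩ := selStm n (R + 2) 1 hn (by omega) one_pos le_rfl
  refine ⟨M₀, hM₀, ?_⟩
  intro F _ _ ν M hν hM h m ε hh hm hε hpar
  have hq : 2 ≤ Fintype.card F := Fintype.one_lt_card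
  let c : (F[X] → ℂ) → ℂ[X] → ℂ := fun χ A => crit (Fintype.card F) (h χ) 0 A
  let w : (F[X] → ℂ) → ℂ[X] → ℕ → ℂ := fun χ A => ww (R + 2) (m χ) (ε χ) (sg χ) (c χ A)
  -- where `h` is not invariant we use the following modification
  let h' : (F[X] → ℂ) → ℕ := fun χ => if h (fun f => conj (χ f)) = h χ then h χ else 0
  have hcc : ∀ χ : F[X] → ℂ, (fun f => conj (conj (χ f))) = χ := by
    intro χ
    funext f
    exact Complex.conj_conj _
  have hh' : ∀ (Q : F[X]) (l : ℕ) (χ : F[X] → ℂ), Prim Q l χ → h' χ = h χ := by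
    intro Q l χ hχ
    show (if h (fun f => conj (χ f)) = h χ then h χ else 0) = h χ
    rw [if_pos (hh Q l χ hχ).2]
  have hh'c : ∀ χ : F[X] → ℂ, h' (fun f => conj (χ f)) = h' χ := by
    intro χ
    show (if h (fun f => conj (conj (χ f))) = h (fun f => conj (χ f)) then h (fun f => conj (χ f)) else 0) =
      (if h (fun f => conj (χ f)) = h χ then h χ else 0)
    rw [hcc χ]
    by_cases h1 : h (fun f => conj (χ f)) = h χ
    · rw [if_pos h1, if_pos h1.symm, h1]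
    · rw [if_neg h1, if_neg (fun h2 => h1 h2.symm)]
  let c' : (F[X] → ℂ) → ℂ[X] → ℂ := fun χ A => crit (Fintype.card F) (h' χ) 0 A
  let w' : (F[X] → ℂ) → ℂ[X] → ℕ → ℂ := fun χ A => ww (R + 2) (m χ) (ε χ) (sg χ) (c' χ A)
  obtain ⟨α, h1, h2, h3, h4⟩ := H F ν M hν hM h' (fun _ => R + 2) ε (fun χ A => pr (R + 2) (w' χ A)) (by
      intro Q l χ hχ
      rw [hh'c χ, hh' Q l χ hχ]
      exact ⟨(hh Q l χ hχ).1, rfl⟩)
    (fun χ => ⟨by omega, le_rfl, rfl⟩) (fun χ => (hε χ).1) (by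
      intro χ A hA
      have h5 := pr_uni (R + 2) (w := w' χ A) (fun j => ww_norm (hε χ).1 (sg_norm χ) (norm_crit hA 0) j)
      have h6 : ∏ j ∈ range (R + 2), (-w' χ A j) = ε χ :=
        ww_prod (by have := (hm χ).1; omega) (sg_norm χ) (norm_crit hA 0)
      rw [h6] at h5
      exact h5) (by
      intro χ A
      rw [pr_map]
      congr 1
      funext j
      show ww (R + 2) (m (fun f => conj (χ f))) (ε (fun f => conj (χ f))) (sg (fun f => conj (χ f)))
        (crit (Fintype.card F) (h' (fun f => conj (χ f))) 0 (A.map (starRingEnd ℂ))) j = conj (w' χ A j)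
      rw [(hm χ).2, (hε χ).2, sg_conj, hh'c χ, crit_conj_zero, ww_conj])
  refine ⟨α, h1, h2, h3, ?_⟩
  intro Q l χ hχ
  obtain ⟨A, a1, a2, a3, a4, a5⟩ := h4 Q l χ hχ
  have hpos : 1 ≤ h' χ := by
    rw [hh' Q l χ hχ]
    refine le_trans ?_ (hh Q l χ hχ).1
    have e1 := le_max_left M (l + 1)
    have : 9 * 1 ≤ ν * (Q.natDegree + max M (l + 1) - 2) := Nat.mul_le_mul hν (by omega)
    omega
  refine ⟨LL (Fintype.card F) (pat (R + 2) (h' χ) (pr (R + 2) (w' χ A)) A), ?_, rh_of_uni hq a3, ?_, a5⟩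
  · rw [← hh' Q l χ hχ]
    exact a4
  · have h5 := order_pat hq hpos le_rfl a1 (R + 2)
      (w := w' χ A) (fun j => ww_norm (hε χ).1 (sg_norm χ) (norm_crit a1 0) j) 0
    rw [Complex.ofReal_zero, zero_mul, add_zero] at h5
    rw [h5]
    have h6 : ((range (R + 2)).filter (fun j => w' χ A j = crit (Fintype.card F) (h' χ) 0 A)).card = m χ := by
      apply ww_count (by have := (hm χ).1; omega) (norm_crit a1 0)
      intro hT
      by_cases hr : (fun f => conj (χ f)) = χ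
      · exfalso
        -- a real character: `A` is real and `c = 1`
        have e1 : crit (Fintype.card F) (h' χ) 0 A = 1 := by
          unfold crit
          have e2 : conj (A.eval (pt (Fintype.card F) 0)) = A.eval (pt (Fintype.card F) 0) := by
            have e3 := eval_conj A (pt (Fintype.card F) 0)
            rw [a2 hr, conj_pt, neg_zero] at e3
            exact e3.symm
          rw [e2, pt_zero, one_pow, one_mul, div_self]
          exact a1.ne 1 (by rw [norm_one])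
        have e4 : c' χ A = 1 := e1
        unfold TT at hT
        rw [show crit (Fintype.card F) (h' χ) 0 A = 1 from e1, map_one, one_pow, mul_one, hpar χ hr, ← mul_pow] at hT
        norm_num at hT
      · exact sg_ne hr
    rw [h6]

end Pool.Agent.Q284.SZ
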