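import Pool.Agent.Q284.SZ.Cen

/-!
# Project SZ: prescribed zeros of all abelian twists, and zeros of prescribed multiplicity, with the Riemann hypothesis
-/

set_option autoImplicit false

open Finset Polynomial ComplexConjugate

namespace Pool.Agent.Q284.SZ

open Pool.Agent.Q284.PS (Prim Hay CM PD PI qq mem_PI norm_le_one Place absPow Nice Tempered
  RankinSelbergConverges hay_cm)
open Pool.Agent.Q284.PX (SelfDual AF ef Ls gen_nice ef_zero absPow_eq norm_z)
open Pool.Agent.Q284.GE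
open Pool.Agent.Q284.SL
open Pool.Agent.Q166.SL (fc fc_eval fc_map pr pr_uni pr_deg fc_ne norm_ne)
open Pool.Agent.Q38.SL (star_circle pat_eval_div deg_lt star_deg eval_conj)

/-- the modified function `h` -/
noncomputable def hm {F : Type} [Field F] (h : (F[X] → ℂ) → ℕ) (χ : F[X] → ℂ) : ℕ :=
  if h (fun f => conj (χ f)) = h χ then h χ else 0

theorem hm_conj {F : Type} [Field F] (h : (F[X] → ℂ) → ℕ) (χ : F[X] → ℂ) : hm h (fun f => conj (χ f)) = hm h χ := by
  have hcc : (fun f => conj (conj (χ f))) = χ := by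
    funext f
    exact Complex.conj_conj _
  unfold hm
  rw [hcc]
  by_cases h1 : h (fun f => conj (χ f)) = h χ
  · rw [if_pos h1, if_pos h1.symm, h1]
  · rw [if_neg h1, if_neg (fun h2 => h1 h2.symm)]

theorem hm_eq {F : Type} [Field F] {h : (F[X] → ℂ) → ℕ} {χ : F[X] → ℂ} (h1 : h (fun f => conj (χ f)) = h χ) :
    hm h χ = h χ := by
  unfold hm
  rw [if_pos h1]

theorem prod_range_two {M : Type} [CommMonoid M] (f : ℕ → M) (N : ℕ) :
    ∏ j ∈ range (2 * N), f j = ∏ i ∈ range N, (f (2 * i) * f (2 * i + 1)) := by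
  induction N with
  | zero => simp
  | succ N ih =>
    rw [show 2 * (N + 1) = 2 * N + 1 + 1 by ring, prod_range_succ, prod_range_succ, ih, prod_range_succ, mul_assoc]

/-- the last parameter -/
noncomputable def lastc (q h N : ℕ) (y : ℕ → ℝ) (ε : ℂ) (A : ℂ[X]) : ℂ :=
  -(ε * ∏ i ∈ range N, conj (crit q h (y i) A * crit q h (-y i) A))

/-- the parameters for prescribed zeros -/
noncomputable def wz (q h N : ℕ) (y : ℕ → ℝ) (ε : ℂ) (A : ℂ[X]) (j : ℕ) : ℂ :=
  if j < 2 * N then (if j % 2 = 0 then crit q h (y (j / 2)) A else crit q h (-y (j / 2)) A)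
  else lastc q h N y ε A

theorem lastc_norm {q h N : ℕ} {y : ℕ → ℝ} {ε : ℂ} (hε : ‖ε‖ = 1) {δ : ℝ} {A : ℂ[X]} (hA : Adm h δ A) :
    ‖lastc q h N y ε A‖ = 1 := by
  unfold lastc
  rw [norm_neg, norm_mul, hε, one_mul, norm_prod]
  refine prod_eq_one fun i _ => ?_
  rw [RCLike.norm_conj, norm_mul, norm_crit hA, norm_crit hA, one_mul]

theorem wz_norm {q h N : ℕ} {y : ℕ → ℝ} {ε : ℂ} (hε : ‖ε‖ = 1) {δ : ℝ} {A : ℂ[X]} (hA : Adm h δ A) (j : ℕ) :
    ‖wz q h N y ε A j‖ = 1 := by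
  unfold wz
  split_ifs
  · exact norm_crit hA _
  · exact norm_crit hA _
  · exact lastc_norm hε hA

theorem wz_even {q h N : ℕ} {y : ℕ → ℝ} {ε : ℂ} {A : ℂ[X]} {i : ℕ} (hi : i < N) :
    wz q h N y ε A (2 * i) = crit q h (y i) A := by
  unfold wz
  rw [if_pos (by omega), if_pos (by omega), Nat.mul_div_cancel_left _ (by norm_num)]

theorem wz_odd {q h N : ℕ} {y : ℕ → ℝ} {ε : ℂ} {A : ℂ[X]} {i : ℕ} (hi : i < N) :
    wz q h N y ε A (2 * i + 1) = crit q h (-y i) A := by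
  unfold wz
  rw [if_pos (by omega), if_neg (by omega)]
  congr 3
  omega

theorem wz_last {q h N : ℕ} {y : ℕ → ℝ} {ε : ℂ} {A : ℂ[X]} : wz q h N y ε A (2 * N) = lastc q h N y ε A := by
  unfold wz
  rw [if_neg (by omega)]

theorem wz_prod {q h N : ℕ} {y : ℕ → ℝ} {ε : ℂ} {δ : ℝ} {A : ℂ[X]} (hA : Adm h δ A) :
    ∏ j ∈ range (2 * N + 1), (-wz q h N y ε A j) = ε := by
  rw [prod_range_succ, prod_range_two, wz_last]
  have e1 : ∏ i ∈ range N, (-wz q h N y ε A (2 * i) * -wz q h N y ε A (2 * i + 1)) =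
      ∏ i ∈ range N, (crit q h (y i) A * crit q h (-y i) A) := by
    refine prod_congr rfl fun i hi => ?_
    rw [wz_even (mem_range.1 hi), wz_odd (mem_range.1 hi)]
    ring
  rw [e1]
  unfold lastc
  rw [neg_neg, mul_comm, mul_assoc, ← prod_mul_distrib]
  have e2 : ∏ i ∈ range N, (conj (crit q h (y i) A * crit q h (-y i) A) * (crit q h (y i) A * crit q h (-y i) A)) =
      1 := by
    refine prod_eq_one fun i _ => ?_
    rw [mul_comm]
    exact mul_conj_one (by rw [norm_mul, norm_crit hA, norm_crit hA, one_mul])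
  rw [e2, mul_one]

theorem wz_conj (q h N : ℕ) (y : ℕ → ℝ) (ε : ℂ) (A : ℂ[X]) :
    pr (2 * N + 1) (wz q h N y (conj ε) (A.map (starRingEnd ℂ))) =
      (pr (2 * N + 1) (wz q h N y ε A)).map (starRingEnd ℂ) := by
  have e1 : ∏ i ∈ range N, (fc (wz q h N y (conj ε) (A.map (starRingEnd ℂ)) (2 * i)) *
      fc (wz q h N y (conj ε) (A.map (starRingEnd ℂ)) (2 * i + 1))) =
      ∏ i ∈ range N, (fc (conj (wz q h N y ε A (2 * i))) * fc (conj (wz q h N y ε A (2 * i + 1)))) := by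
    refine prod_congr rfl fun i hi => ?_
    rw [mem_range] at hi
    rw [wz_even hi, wz_odd hi, wz_even hi, wz_odd hi, crit_conj, crit_conj, neg_neg, mul_comm]
  have e2 : wz q h N y (conj ε) (A.map (starRingEnd ℂ)) (2 * N) = conj (wz q h N y ε A (2 * N)) := by
    rw [wz_last, wz_last]
    unfold lastc
    rw [map_neg, map_mul, map_prod]
    have e3 : ∏ i ∈ range N, conj (crit q h (y i) (A.map (starRingEnd ℂ)) * crit q h (-y i) (A.map (starRingEnd ℂ))) =
        ∏ i ∈ range N, conj (conj (crit q h (y i) A * crit q h (-y i) A)) := by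
      refine prod_congr rfl fun i _ => ?_
      rw [crit_conj, crit_conj, neg_neg, map_mul, map_mul, map_mul, Complex.conj_conj, Complex.conj_conj, mul_comm]
    rw [e3]
  rw [pr_map]
  unfold pr
  rw [prod_range_succ, prod_range_two, e1, e2, prod_range_succ, prod_range_two]

open Classical in
theorem wz_count {q h N : ℕ} {y : ℕ → ℝ} {ε : ℂ} {A : ℂ[X]} (t : ℝ) :
    ((range N).filter (fun i => y i = t)).card ≤
      ((range (2 * N + 1)).filter (fun j => wz q h N y ε A j = crit q h t A)).card ∧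
    ((range N).filter (fun i => y i = t)).card ≤
      ((range (2 * N + 1)).filter (fun j => wz q h N y ε A j = crit q h (-t) A)).card := by
  constructor
  · apply card_le_card_of_injOn (fun i => 2 * i)
    · intro i hi
      rw [mem_coe, mem_filter, mem_range] at hi
      rw [mem_coe, mem_filter, mem_range]
      show 2 * i < 2 * N + 1 ∧ wz q h N y ε A (2 * i) = crit q h t A
      refine ⟨by omega, ?_⟩
      rw [wz_even hi.1, hi.2]
    · intro i _ j _ hij
      simp only at hij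
      omega
  · apply card_le_card_of_injOn (fun i => 2 * i + 1)
    · intro i hi
      rw [mem_coe, mem_filter, mem_range] at hi
      rw [mem_coe, mem_filter, mem_range]
      show 2 * i + 1 < 2 * N + 1 ∧ wz q h N y ε A (2 * i + 1) = crit q h (-t) A
      refine ⟨by omega, ?_⟩
      rw [wz_odd hi.1, hi.2]
    · intro i _ j _ hij
      simp only at hij
      omega

open Classical in
/-- prescribed zeros -/
def ComStm : Prop := ∀ n N : ℕ, 4 ≤ n → ∃ M₀ : ℕ, 3 ≤ M₀ ∧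
  ∀ (F : Type) [Field F] [Fintype F] (ν M : ℕ), 9 ≤ ν → M₀ ≤ M →
  ∀ (h : (F[X] → ℂ) → ℕ) (y : (F[X] → ℂ) → ℕ → ℝ) (ε : (F[X] → ℂ) → ℂ),
  (∀ (Q : F[X]) (l : ℕ) (χ : F[X] → ℂ), Prim Q l χ →
    ν * (Q.natDegree + max M (l + 1) - 2) ≤ h χ ∧ h (fun f => conj (χ f)) = h χ) →
  (∀ χ, y (fun f => conj (χ f)) = y χ) →
  (∀ χ, ‖ε χ‖ = 1 ∧ ε (fun f => conj (χ f)) = conj (ε χ)) →
  ∃ α : F[X] → Fin n → ℂ, Tempered α ∧ SelfDual α ∧
    (∀ P : F[X], P.Monic → Irreducible P →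
      ‖∑ j, α P j‖ ≤ (Fintype.card F : ℝ) ^ (-(9 / 10 * (1 / 2 - 4 / (ν : ℝ)) * P.natDegree))) ∧
    ∀ (Q : F[X]) (l : ℕ) (χ : F[X] → ℂ), Prim Q l χ → ∃ L : ℂ → ℂ,
      Nice (Fintype.card F) ((2 * N + 1) * h χ) (ε χ) L ∧ RiemannHypothesis L ∧
      (∀ t : ℝ, (((range N).filter (fun i => y χ i = t)).card : ℕ∞) ≤
          analyticOrderAt L (1 / 2 + (t : ℂ) * Complex.I) ∧
        (((range N).filter (fun i => y χ i = t)).card : ℕ∞) ≤
          analyticOrderAt L (1 / 2 - (t : ℂ) * Complex.I)) ∧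
      ∀ s : ℂ, 1 - 9 / 10 * (1 / 2 - 4 / (ν : ℝ)) < s.re →
        HasProd (fun P : Place F => ∏ j, (1 - α P.1 j * (χ P.1 * absPow P.1 s))⁻¹) (L s)

theorem comStm : ComStm := by
  classical
  intro n N hn
  obtain ⟨M₀, hM₀, H⟩ := selStm n (2 * N + 1) 1 hn (by omega) one_pos le_rfl
  refine ⟨M₀, hM₀, ?_⟩
  intro F _ _ ν M hν hM h y ε hh hy hε
  have hq : 2 ≤ Fintype.card F := Fintype.one_lt_card
  let w' : (F[X] → ℂ) → ℂ[X] → ℕ → ℂ := fun χ A => wz (Fintype.card F) (hm h χ) N (y χ) (ε χ) A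
  obtain ⟨α, h1, h2, h3, h4⟩ := H F ν M hν hM (hm h) (fun _ => 2 * N + 1) ε (fun χ A => pr (2 * N + 1) (w' χ A)) (by
      intro Q l χ hχ
      rw [hm_conj, hm_eq (hh Q l χ hχ).2]
      exact ⟨(hh Q l χ hχ).1, rfl⟩)
    (fun χ => ⟨by omega, le_rfl, rfl⟩) (fun χ => (hε χ).1) (by
      intro χ A hA
      have h5 := pr_uni (2 * N + 1) (w := w' χ A) (fun j => wz_norm (hε χ).1 hA j)
      have h6 : ∏ j ∈ range (2 * N + 1), (-w' χ A j) = ε χ := wz_prod hA
      rw [h6] at h5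
      exact h5) (by
      intro χ A
      show pr (2 * N + 1) (wz (Fintype.card F) (hm h (fun f => conj (χ f))) N (y (fun f => conj (χ f)))
        (ε (fun f => conj (χ f))) (A.map (starRingEnd ℂ))) = _
      rw [(hε χ).2, hm_conj, hy χ, wz_conj])
  refine ⟨α, h1, h2, h3, ?_⟩
  intro Q l χ hχ
  obtain ⟨A, a1, a2, a3, a4, a5⟩ := h4 Q l χ hχ
  have hpos : 1 ≤ hm h χ := by
    rw [hm_eq (hh Q l χ hχ).2]
    refine le_trans ?_ (hh Q l χ hχ).1
    have e1 := le_max_left M (l + 1)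
    have : 9 * 1 ≤ ν * (Q.natDegree + max M (l + 1) - 2) := Nat.mul_le_mul hν (by omega)
    omega
  refine ⟨LL (Fintype.card F) (pat (2 * N + 1) (hm h χ) (pr (2 * N + 1) (w' χ A)) A), ?_, rh_of_uni hq a3, ?_, a5⟩
  · rw [← hm_eq (hh Q l χ hχ).2]
    exact a4
  · intro t
    have key := fun y' : ℝ => order_pat hq hpos le_rfl a1 (2 * N + 1)
      (w := w' χ A) (fun j => wz_norm (hε χ).1 a1 j) y'
    obtain ⟨c1, c2⟩ := wz_count (q := Fintype.card F) (h := hm h χ) (N := N) (y := y χ) (ε := ε χ) (A := A) t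
    constructor
    · rw [key t]
      exact_mod_cast c1
    · have e : (1 / 2 - (t : ℂ) * Complex.I) = 1 / 2 + ((-t : ℝ) : ℂ) * Complex.I := by
        push_cast
        ring
      rw [e, key (-t)]
      exact_mod_cast c2

end Pool.Agent.Q284.SZ
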