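import Pool.Agent.Q284.SZ.Sel
import Pool.Agent.Q38.SL.Base
import Pool.Agent.Q166.SL.UPH

/-!
# Project SZ: factorisation of the pattern polynomials, orders of the zeros
-/

set_option autoImplicit false

open Finset Polynomial ComplexConjugate

namespace Pool.Agent.Q284.SZ

open Pool.Agent.Q284.GE
open Pool.Agent.Q284.SL
open Pool.Agent.Q166.SL (fc fc_eval fc_map pr pr_uni pr_deg fc_ne norm_ne)
open Pool.Agent.Q38.SL (star_circle pat_eval_div deg_lt star_deg)

theorem Adm.ne_zero {h : ℕ} {δ : ℝ} {A : ℂ[X]} (hA : Adm h δ A) : A ≠ 0 := by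
  intro h0
  have := hA.zero
  rw [h0, coeff_zero] at this
  exact zero_ne_one this

/-- the pattern polynomial of a product of linear factors -/
theorem pat_pr {h : ℕ} {δ : ℝ} {A : ℂ[X]} (hA : Adm h δ A) (r : ℕ) {w : ℕ → ℂ} (hw : ∀ j, ‖w j‖ = 1) :
    pat r h (pr r w) A = ∏ j ∈ range r, (A - C (w j) * star h A) := by
  apply Polynomial.eq_of_infinite_eval_eq
  have h1 : {z : ℂ | A.eval z = 0}.Finite := by
    have : {z : ℂ | A.eval z = 0} ⊆ (A.roots.toFinset : Set ℂ) := by
      intro z hz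
      rw [Finset.mem_coe, Multiset.mem_toFinset, mem_roots hA.ne_zero]
      exact hz
    exact (Finset.finite_toSet _).subset this
  refine (h1.infinite_compl).mono ?_
  intro z hz
  have hz' : A.eval z ≠ 0 := hz
  show (pat r h (pr r w) A).eval z = (∏ j ∈ range r, (A - C (w j) * star h A)).eval z
  rw [pat_eval_div r h _ _ (pr_deg r hw).le z hz', eval_prod]
  unfold pr
  rw [eval_prod, ← Finset.card_range r, ← Finset.prod_const, Finset.card_range, ← Finset.prod_mul_distrib]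
  refine prod_congr rfl fun j _ => ?_
  rw [fc_eval, eval_sub, eval_mul, eval_C]
  field_simp

/-- a zero on the circle of `A - w A*` -/
theorem fac_zero_iff {h : ℕ} {δ : ℝ} {A : ℂ[X]} (hA : Adm h δ A) {z : ℂ} (hz : ‖z‖ = 1) (w : ℂ) :
    (A - C w * star h A).eval z = 0 ↔ w = A.eval z / (z ^ h * conj (A.eval z)) := by
  have h1 := hA.ne z hz.le
  have h2 : z ≠ 0 := norm_ne hz
  have h3 : conj (A.eval z) ≠ 0 := by simpa using h1
  rw [eval_sub, eval_mul, eval_C, star_circle hA.zero hA.deg z hz, eq_div_iff (mul_ne_zero (pow_ne_zero _ h2) h3),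
    sub_eq_zero, eq_comm]

/-- the absolute value of the critical number -/
theorem crit_norm {h : ℕ} {δ : ℝ} {A : ℂ[X]} (hA : Adm h δ A) {z : ℂ} (hz : ‖z‖ = 1) :
    ‖A.eval z / (z ^ h * conj (A.eval z))‖ = 1 := by
  have h1 := hA.ne z hz.le
  rw [norm_div, norm_mul, norm_pow, hz, one_pow, one_mul, RCLike.norm_conj, div_self (norm_ne_zero_iff.2 h1)]

/-- the derivative of `A*` on the circle -/
theorem star_der {h : ℕ} {A : ℂ[X]} (h0 : A.coeff 0 = 1) (h1 : ∀ n : ℕ, h ≤ 2 * n → A.coeff n = 0) {z : ℂ}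
    (hz : ‖z‖ = 1) : z * (star h A).derivative.eval z =
      h * (star h A).eval z - z ^ h * conj (z * A.derivative.eval z) := by
  have hz0 : z ≠ 0 := norm_ne hz
  have hcz : conj z = z⁻¹ := by
    rw [Complex.inv_def, Complex.normSq_eq_norm_sq, hz]
    simp
  have key : ∀ n : ℕ, 2 * n < h → z ^ (h - n) = z ^ h * conj (z ^ n) := by
    intro n hn
    rw [map_pow, hcz, inv_pow, eq_mul_inv_iff_mul_eq₀ (pow_ne_zero _ hz0), ← pow_add]
    congr 1
    omega
  have hdeg : A.natDegree < h := by have := deg_lt h0 h1; omega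
  have e1 : z * A.derivative.eval z = ∑ n ∈ range h, (n : ℂ) * A.coeff n * z ^ n := by
    rw [derivative_eval, sum_over_range' _ (by simp) h hdeg, Finset.mul_sum]
    refine sum_congr rfl fun n _ => ?_
    rcases Nat.eq_zero_or_pos n with rfl | hn
    · simp
    · have : z ^ n = z * z ^ (n - 1) := by rw [← pow_succ']; congr 1; omega
      rw [this]
      ring
  have e2 : (star h A).eval z = ∑ n ∈ (range h).filter (fun n => 2 * n < h), conj (A.coeff n) * z ^ (h - n) := by
    unfold SL.star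
    rw [eval_finsetSum]
    refine sum_congr rfl fun n _ => ?_
    simp
  have e3 : z * (star h A).derivative.eval z =
      ∑ n ∈ (range h).filter (fun n => 2 * n < h), ((h : ℂ) - n) * (conj (A.coeff n) * z ^ (h - n)) := by
    unfold SL.star
    rw [derivative_sum, eval_finsetSum, Finset.mul_sum]
    refine sum_congr rfl fun n hn => ?_
    rw [mem_filter, mem_range] at hn
    rw [derivative_C_mul, derivative_X_pow, eval_mul, eval_C, eval_mul, eval_pow, eval_X, eval_C]
    have : z ^ (h - n) = z * z ^ (h - n - 1) := by rw [← pow_succ']; congr 1; omega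
    rw [this, Nat.cast_sub (by omega)]
    ring
  rw [e1, e2, e3, map_sum, Finset.mul_sum, Finset.mul_sum]
  have e4 : ∑ n ∈ range h, z ^ h * conj ((n : ℂ) * A.coeff n * z ^ n) =
      ∑ n ∈ (range h).filter (fun n => 2 * n < h), (n : ℂ) * (conj (A.coeff n) * z ^ (h - n)) := by
    rw [sum_filter]
    refine sum_congr rfl fun n _ => ?_
    split_ifs with h2
    · rw [key n h2, map_mul, map_mul, map_natCast]
      ring
    · rw [h1 n (by omega)]
      simp
  rw [e4, ← sum_sub_distrib]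
  refine sum_congr rfl fun n _ => ?_
  ring

/-- the zeros on the circle of `A - w A*` are simple -/
theorem fac_simple {h : ℕ} (hh : 1 ≤ h) {δ : ℝ} (hδ1 : δ ≤ 1) {A : ℂ[X]} (hA : Adm h δ A) {z : ℂ} (hz : ‖z‖ = 1)
    {w : ℂ} (hw : (A - C w * star h A).eval z = 0) : (A - C w * star h A).derivative.eval z ≠ 0 := by
  intro hcon
  have hz0 : z ≠ 0 := norm_ne hz
  have hAz := hA.ne z hz.le
  have hcA : conj (A.eval z) ≠ 0 := by simpa using hAz
  have h1 := star_der hA.zero hA.deg hz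
  have h2 := hA.der z hz
  have h3 := (fac_zero_iff hA hz w).1 hw
  have hh0 : (1 : ℝ) ≤ h := by exact_mod_cast hh
  have h4 : z * A.derivative.eval z - w * (z * (star h A).derivative.eval z) = 0 := by
    have e : (A - C w * star h A).derivative.eval z = A.derivative.eval z - w * (star h A).derivative.eval z := by
      rw [derivative_sub, derivative_C_mul, eval_sub, eval_mul, eval_C]
    rw [e] at hcon
    linear_combination z * hcon
  rw [h1, star_circle hA.zero hA.deg z hz, h3] at h4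
  set a : ℂ := A.eval z with ha
  set d : ℂ := z * A.derivative.eval z with hd
  have h5 : d - h * a + a / conj a * conj d = 0 := by
    have hzh := pow_ne_zero h hz0
    have e : a / (z ^ h * conj a) * (h * (z ^ h * conj a) - z ^ h * conj d) = h * a - a / conj a * conj d := by
      field_simp
    rw [e] at h4
    linear_combination h4
  have h6 : ‖(h : ℂ) * a‖ ≤ ‖d‖ + ‖a / conj a * conj d‖ := by
    have e : (h : ℂ) * a = d + a / conj a * conj d := by linear_combination -h5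
    rw [e]
    exact norm_add_le _ _
  have h8 : ‖a / conj a * conj d‖ = ‖d‖ := by
    rw [norm_mul, norm_div, RCLike.norm_conj, RCLike.norm_conj, div_self (norm_ne_zero_iff.2 hAz), one_mul]
  have h9 : ‖(h : ℂ) * a‖ = h * ‖a‖ := by
    rw [norm_mul, Complex.norm_natCast]
  rw [h8, h9] at h6
  have h7 : 0 < ‖a‖ := norm_pos_iff.2 hAz
  nlinarith [mul_nonneg (sub_nonneg.2 hδ1) (mul_nonneg (by linarith : (0:ℝ) ≤ h) h7.le)]

/-! ## The analytic side -/

/-- `L(s) = b(√q q^(-s))` -/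
noncomputable def LL (q : ℕ) (b : ℂ[X]) (s : ℂ) : ℂ := b.eval ((Real.sqrt q : ℂ) * (q : ℂ) ^ (-s))

/-- the point on the circle -/
noncomputable def pt (q : ℕ) (y : ℝ) : ℂ := Complex.exp (((-(y * Real.log q) : ℝ) : ℂ) * Complex.I)

theorem pt_norm (q : ℕ) (y : ℝ) : ‖pt q y‖ = 1 := Complex.norm_exp_ofReal_mul_I _

theorem pt_zero (q : ℕ) : pt q 0 = 1 := by
  unfold pt
  simp

theorem conj_pt (q : ℕ) (y : ℝ) : conj (pt q y) = pt q (-y) := by
  unfold pt
  rw [← Complex.exp_conj, map_mul, Complex.conj_ofReal, Complex.conj_I]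
  congr 1
  push_cast
  ring

theorem pt_eq {q : ℕ} (hq : 2 ≤ q) (y : ℝ) :
    (Real.sqrt q : ℂ) * (q : ℂ) ^ (-(1 / 2 + (y : ℂ) * Complex.I)) = pt q y := by
  have hq1 : (1 : ℝ) < q := by exact_mod_cast (by omega : 1 < q)
  have hq0 : (0 : ℝ) < q := by linarith
  have hqC : (q : ℂ) = (((q : ℝ) : ℝ) : ℂ) := by push_cast; rfl
  have hqC0 : (q : ℂ) ≠ 0 := by exact_mod_cast (by omega : q ≠ 0)
  have e1 : (Real.sqrt q : ℂ) = Complex.exp ((Real.log q / 2 : ℝ) : ℂ) := by
    rw [← Complex.ofReal_exp, Real.exp_half, Real.exp_log hq0]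
  unfold pt
  rw [e1, Complex.cpow_def_of_ne_zero hqC0, hqC, ← Complex.ofReal_log hq0.le, ← Complex.exp_add]
  congr 1
  push_cast
  ring

theorem LL_mul (q : ℕ) (b c : ℂ[X]) : LL q (b * c) = LL q b * LL q c := by
  funext s
  unfold LL
  rw [eval_mul]
  rfl

theorem LL_pow (q : ℕ) (b : ℂ[X]) (n : ℕ) : LL q (b ^ n) = LL q b ^ n := by
  funext s
  unfold LL
  rw [eval_pow]
  rfl

theorem LL_deriv {q : ℕ} (hq : 2 ≤ q) (b : ℂ[X]) (s : ℂ) :
    HasDerivAt (LL q b) (b.derivative.eval ((Real.sqrt q : ℂ) * (q : ℂ) ^ (-s)) *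
        ((Real.sqrt q : ℂ) * ((q : ℂ) ^ (-s) * Complex.log q * (-1)))) s := by
  have hqC0 : (q : ℂ) ≠ 0 := by exact_mod_cast (by omega : q ≠ 0)
  have h4 : HasDerivAt (fun s : ℂ => -s) (-1) s := (hasDerivAt_id s).neg
  have h5 : HasDerivAt (fun s : ℂ => (q : ℂ) ^ (-s)) ((q : ℂ) ^ (-s) * Complex.log q * (-1)) s :=
    h4.const_cpow (Or.inl hqC0)
  have h6 := h5.const_mul (Real.sqrt q : ℂ)
  exact (b.hasDerivAt _).comp s h6

theorem LL_analytic {q : ℕ} (hq : 2 ≤ q) (b : ℂ[X]) (s : ℂ) : AnalyticAt ℂ (LL q b) s :=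
  (Differentiable.analyticAt (fun z => (LL_deriv hq b z).differentiableAt)) s

/-- simple zeros -/
theorem order_one {q : ℕ} (hq : 2 ≤ q) {b : ℂ[X]} {y : ℝ} (h1 : b.eval (pt q y) = 0)
    (h2 : b.derivative.eval (pt q y) ≠ 0) : analyticOrderAt (LL q b) (1 / 2 + (y : ℂ) * Complex.I) = 1 := by
  have hq1 : (1 : ℝ) < q := by exact_mod_cast (by omega : 1 < q)
  have hq0 : (0 : ℝ) < q := by linarith
  have hlog : 0 < Real.log q := Real.log_pos hq1
  have hqC : (q : ℂ) = (((q : ℝ) : ℝ) : ℂ) := by push_cast; rfl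
  have hqC0 : (q : ℂ) ≠ 0 := by exact_mod_cast (by omega : q ≠ 0)
  set s₀ : ℂ := 1 / 2 + (y : ℂ) * Complex.I with hs
  have ha := LL_analytic hq b s₀
  have h3 : LL q b s₀ = 0 := by
    unfold LL
    rw [hs, pt_eq hq]
    exact h1
  have h4 : deriv (LL q b) s₀ ≠ 0 := by
    rw [(LL_deriv hq b s₀).deriv]
    have h7 : b.derivative.eval ((Real.sqrt q : ℂ) * (q : ℂ) ^ (-s₀)) ≠ 0 := by
      rw [hs, pt_eq hq]
      exact h2
    refine mul_ne_zero h7 (mul_ne_zero ?_ (mul_ne_zero (mul_ne_zero ?_ ?_) (by norm_num)))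
    · have : 0 < Real.sqrt q := Real.sqrt_pos.2 hq0
      exact_mod_cast this.ne'
    · rw [Complex.cpow_def_of_ne_zero hqC0]
      exact Complex.exp_ne_zero _
    · rw [hqC, ← Complex.ofReal_log hq0.le]
      exact_mod_cast hlog.ne'
  have h5 := ha.analyticOrderAt_deriv_add_one
  rw [h3] at h5
  simp only [sub_zero] at h5
  have h6 : analyticOrderAt (deriv (LL q b)) s₀ = 0 := by
    rw [ha.deriv.analyticOrderAt_eq_zero]
    exact h4
  rw [h6, zero_add] at h5
  exact h5.symm

/-- no zero -/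
theorem order_zero {q : ℕ} (hq : 2 ≤ q) {b : ℂ[X]} {y : ℝ} (h1 : b.eval (pt q y) ≠ 0) :
    analyticOrderAt (LL q b) (1 / 2 + (y : ℂ) * Complex.I) = 0 := by
  rw [(LL_analytic hq b _).analyticOrderAt_eq_zero]
  unfold LL
  rw [pt_eq hq]
  exact h1

/-- all zeros are on the line -/
theorem rh_of_uni {q : ℕ} (hq : 2 ≤ q) {D : ℕ} {ε : ℂ} {b : ℂ[X]} (hb : Uni D ε b) : RiemannHypothesis (LL q b) := by
  have hq1 : (1 : ℝ) < q := by exact_mod_cast (by omega : 1 < q)
  have hq0 : (0 : ℝ) < q := by linarith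
  have hlog : 0 < Real.log q := Real.log_pos hq1
  have hqC : (q : ℂ) = (((q : ℝ) : ℝ) : ℂ) := by push_cast; rfl
  intro s hs
  have h4 := hb.root _ hs
  rw [norm_mul, Complex.norm_real, Real.norm_eq_abs, abs_of_nonneg (Real.sqrt_nonneg _), hqC,
    Complex.norm_cpow_eq_rpow_re_of_pos hq0, Real.sqrt_eq_rpow, ← Real.rpow_add hq0] at h4
  have h5 := congrArg Real.log h4
  rw [Real.log_rpow hq0, Real.log_one] at h5
  have h6 := (mul_eq_zero.1 h5).resolve_right hlog.ne'
  rw [Complex.neg_re] at h6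
  linarith

end Pool.Agent.Q284.SZ
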