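import Pool.Agent.Q284.SZ.Fac

/-!
# Project SZ: the orders of the zeros; the selection for prescribed orders at the center
-/

set_option autoImplicit false

open Finset Polynomial ComplexConjugate

namespace Pool.Agent.Q284.SZ

open Pool.Agent.Q284.GE
open Pool.Agent.Q284.SL
open Pool.Agent.Q166.SL (fc fc_eval fc_map pr pr_uni pr_deg fc_ne norm_ne)
open Pool.Agent.Q38.SL (star_circle pat_eval_div deg_lt star_deg eval_conj)

/-- the critical number of the point `1/2 + i y` -/
noncomputable def crit (q h : ℕ) (y : ℝ) (A : ℂ[X]) : ℂ := A.eval (pt q y) / (pt q y ^ h * conj (A.eval (pt q y)))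

theorem norm_crit {q h : ℕ} {δ : ℝ} {A : ℂ[X]} (hA : Adm h δ A) (y : ℝ) : ‖crit q h y A‖ = 1 :=
  crit_norm hA (pt_norm q y)

open Classical in
/-- the orders of the zeros of the pattern polynomial -/
theorem order_pat {q : ℕ} (hq : 2 ≤ q) {h : ℕ} (hh : 1 ≤ h) {δ : ℝ} (hδ1 : δ ≤ 1) {A : ℂ[X]} (hA : Adm h δ A)
    (r : ℕ) {w : ℕ → ℂ} (hw : ∀ j, ‖w j‖ = 1) (y : ℝ) :
    analyticOrderAt (LL q (pat r h (pr r w) A)) (1 / 2 + (y : ℂ) * Complex.I) =
      (((range r).filter (fun j => w j = crit q h y A)).card : ℕ∞) := by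
  rw [pat_pr hA r hw]
  have key : ∀ r : ℕ, analyticOrderAt (LL q (∏ j ∈ range r, (A - C (w j) * star h A)))
      (1 / 2 + (y : ℂ) * Complex.I) = (((range r).filter (fun j => w j = crit q h y A)).card : ℕ∞) := by
    intro r
    induction r with
    | zero =>
      rw [prod_range_zero]
      have : analyticOrderAt (LL q 1) (1 / 2 + (y : ℂ) * Complex.I) = 0 := order_zero hq (by simp)
      rw [this]
      simp
    | succ r ih =>
      rw [prod_range_succ, LL_mul, analyticOrderAt_mul (LL_analytic hq _ _) (LL_analytic hq _ _), ih, range_add_one,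
        filter_insert]
      split_ifs with h1
      · rw [card_insert_of_notMem (by simp)]
        have h2 := (fac_zero_iff hA (pt_norm q y) (w r)).2 h1
        rw [order_one hq h2 (fac_simple hh hδ1 hA (pt_norm q y) h2)]
        push_cast
        rfl
      · have h2 : (A - C (w r) * star h A).eval (pt q y) ≠ 0 := fun h3 =>
          h1 ((fac_zero_iff hA (pt_norm q y) (w r)).1 h3)
        rw [order_zero hq h2, add_zero]
  exact key r

/-! ## A sign for every character which is not real -/

open Classical in
/-- a choice of an element -/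
noncomputable def pick {α : Type} [Inhabited α] (S : Set α) : α := if h : S.Nonempty then h.some else default

theorem pick_mem {α : Type} [Inhabited α] {S : Set α} (h : S.Nonempty) : pick S ∈ S := by
  unfold pick
  rw [dif_pos h]
  exact h.some_mem

section Sgn

variable {F : Type} [Field F]

/-- `i`, `-i` for the characters which are not real, `1` for the real ones -/
noncomputable def sg (χ : F[X] → ℂ) : ℂ :=
  if 0 < (χ (pick {f | (χ f).im ≠ 0})).im then Complex.I
  else if (χ (pick {f | (χ f).im ≠ 0})).im < 0 then -Complex.I else 1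

theorem sg_conj (χ : F[X] → ℂ) : sg (fun f => conj (χ f)) = conj (sg χ) := by
  unfold sg
  have e : {f : F[X] | (conj (χ f)).im ≠ 0} = {f | (χ f).im ≠ 0} := by
    ext f
    simp
  rw [e]
  set f₀ := pick {f | (χ f).im ≠ 0}
  rw [Complex.conj_im]
  rcases lt_trichotomy 0 (χ f₀).im with h | h | h
  · rw [if_neg (by linarith), if_pos (by linarith), if_pos h, Complex.conj_I]
  · rw [if_neg (by linarith), if_neg (by linarith), if_neg (by linarith), if_neg (by linarith), map_one]
  · rw [if_pos (by linarith), if_neg (by linarith), if_pos h, map_neg, Complex.conj_I, neg_neg]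

theorem sg_norm (χ : F[X] → ℂ) : ‖sg χ‖ = 1 := by
  unfold sg
  split_ifs <;> simp

theorem sg_ne {χ : F[X] → ℂ} (h : (fun f => conj (χ f)) ≠ χ) : sg χ = Complex.I ∨ sg χ = -Complex.I := by
  have h1 : {f : F[X] | (χ f).im ≠ 0}.Nonempty := by
    by_contra hcon
    apply h
    funext f
    have h2 : ¬ (χ f).im ≠ 0 := fun h3 => hcon ⟨f, h3⟩
    rw [Complex.conj_eq_iff_im]
    exact not_not.1 h2
  have h2 := pick_mem h1
  unfold sg
  rcases lt_trichotomy 0 (χ (pick {f | (χ f).im ≠ 0})).im with h3 | h3 | h3
  · rw [if_pos h3]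
    exact Or.inl rfl
  · exact absurd h3.symm h2
  · rw [if_neg (by linarith), if_pos h3]
    exact Or.inr rfl

end Sgn

/-! ## The selection for the center -/

/-- the product of the two last parameters -/
noncomputable def TT (r m : ℕ) (ε c : ℂ) : ℂ := ε * (-1) ^ m * conj c ^ r

open Classical in
/-- the unimodular number for the case `T = -1` -/
noncomputable def uu (r m : ℕ) (ε σ c : ℂ) : ℂ := if TT r m ε c = -1 then σ else 1

/-- the parameters -/
noncomputable def ww (r m : ℕ) (ε σ c : ℂ) (j : ℕ) : ℂ :=
  if j < m then c else if j = m then -(c * (TT r m ε c * uu r m ε σ c)) else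
    if j = m + 1 then -(c * conj (uu r m ε σ c)) else -c

theorem TT_conj (r m : ℕ) (ε c : ℂ) : TT r m (conj ε) (conj c) = conj (TT r m ε c) := by
  unfold TT
  rw [map_mul, map_mul, map_pow, map_pow, map_neg, map_one]

theorem uu_conj (r m : ℕ) (ε σ c : ℂ) : uu r m (conj ε) (conj σ) (conj c) = conj (uu r m ε σ c) := by
  unfold uu
  rw [TT_conj]
  by_cases h : TT r m ε c = -1
  · rw [if_pos h, if_pos (by rw [h, map_neg, map_one])]
  · rw [if_neg h, if_neg, map_one]
    intro h1
    apply h
    have := congrArg conj h1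
    rwa [Complex.conj_conj, map_neg, map_one] at this

theorem ww_conj (r m : ℕ) (ε σ c : ℂ) (j : ℕ) : ww r m (conj ε) (conj σ) (conj c) j = conj (ww r m ε σ c j) := by
  unfold ww
  rw [TT_conj, uu_conj]
  split_ifs
  · rfl
  · rw [map_neg, map_mul, map_mul]
  · rw [map_neg, map_mul]
  · rw [map_neg]

theorem TT_norm {r m : ℕ} {ε c : ℂ} (hε : ‖ε‖ = 1) (hc : ‖c‖ = 1) : ‖TT r m ε c‖ = 1 := by
  unfold TT
  rw [norm_mul, norm_mul, norm_pow, norm_pow, norm_neg, norm_one, one_pow, hε, RCLike.norm_conj, hc, one_pow]
  norm_num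

theorem uu_norm {r m : ℕ} {ε σ c : ℂ} (hσ : ‖σ‖ = 1) : ‖uu r m ε σ c‖ = 1 := by
  unfold uu
  split_ifs
  · exact hσ
  · exact norm_one

theorem ww_norm {r m : ℕ} {ε σ c : ℂ} (hε : ‖ε‖ = 1) (hσ : ‖σ‖ = 1) (hc : ‖c‖ = 1) (j : ℕ) :
    ‖ww r m ε σ c j‖ = 1 := by
  unfold ww
  split_ifs
  · exact hc
  · rw [norm_neg, norm_mul, norm_mul, hc, TT_norm hε hc, uu_norm hσ]
    norm_num
  · rw [norm_neg, norm_mul, RCLike.norm_conj, hc, uu_norm hσ, one_mul]
  · rw [norm_neg]
    exact hc

theorem mul_conj_one {z : ℂ} (hz : ‖z‖ = 1) : z * conj z = 1 := by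
  rw [Complex.mul_conj, Complex.normSq_eq_norm_sq, hz]
  simp

/-- the root number -/
theorem ww_prod {r m : ℕ} (hm : m + 2 ≤ r) {ε σ c : ℂ} (hσ : ‖σ‖ = 1) (hc : ‖c‖ = 1) :
    ∏ j ∈ range r, (-ww r m ε σ c j) = ε := by
  obtain ⟨k, rfl⟩ : ∃ k, r = m + 2 + k := ⟨r - (m + 2), by omega⟩
  set r := m + 2 + k with hr
  rw [hr, prod_range_add, prod_range_add, prod_range_succ, prod_range_one]
  have e1 : ∏ j ∈ range m, (-ww r m ε σ c j) = (-c) ^ m := by
    rw [← card_range m, ← prod_const, card_range]
    refine prod_congr rfl fun j hj => ?_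
    rw [mem_range] at hj
    unfold ww
    rw [if_pos hj]
  have e2 : ww r m ε σ c (m + 0) = -(c * (TT r m ε c * uu r m ε σ c)) := by
    unfold ww
    rw [if_neg (by omega), if_pos (by omega)]
  have e3 : ww r m ε σ c (m + 1) = -(c * conj (uu r m ε σ c)) := by
    unfold ww
    rw [if_neg (by omega), if_neg (by omega), if_pos rfl]
  have e4 : ∏ j ∈ range k, (-ww r m ε σ c (m + 2 + j)) = c ^ k := by
    rw [← card_range k, ← prod_const, card_range]
    refine prod_congr rfl fun j _ => ?_
    unfold ww
    rw [if_neg (by omega), if_neg (by omega), if_neg (by omega), neg_neg]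
  rw [e1, e2, e3, e4, neg_neg, neg_neg]
  have hu := mul_conj_one (uu_norm (r := r) (m := m) (ε := ε) (σ := σ) (c := c) hσ)
  have hcc := mul_conj_one hc
  have e5 : (-c) ^ m * (c * (TT r m ε c * uu r m ε σ c) * (c * conj (uu r m ε σ c))) * c ^ k =
      (-1) ^ m * c ^ r * TT r m ε c * (uu r m ε σ c * conj (uu r m ε σ c)) := by
    rw [hr, neg_pow]
    ring
  rw [e5, hu, mul_one]
  unfold TT
  have e6 : (-1 : ℂ) ^ m * c ^ r * (ε * (-1) ^ m * conj c ^ r) = ε * ((-1) ^ m * (-1) ^ m) * (c * conj c) ^ r := by
    rw [mul_pow]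
    ring
  rw [e6, hcc, one_pow, mul_one, ← mul_pow]
  norm_num

open Classical in
/-- the number of the parameters which are equal to `c` -/
theorem ww_count {r m : ℕ} (hm : m + 2 ≤ r) {ε σ c : ℂ} (hc : ‖c‖ = 1)
    (hT : TT r m ε c = -1 → σ = Complex.I ∨ σ = -Complex.I) :
    ((range r).filter (fun j => ww r m ε σ c j = c)).card = m := by
  have hc0 : c ≠ 0 := norm_ne hc
  have e : (range r).filter (fun j => ww r m ε σ c j = c) = range m := by
    ext j
    rw [mem_filter, mem_range, mem_range]
    constructor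
    · rintro ⟨_, h2⟩
      by_contra hj
      unfold ww at h2
      rw [if_neg hj] at h2
      split_ifs at h2 with h3 h4
      · have h5 : TT r m ε c * uu r m ε σ c = -1 := by
          have h6 : c * (TT r m ε c * uu r m ε σ c + 1) = 0 := by linear_combination -h2
          have h7 := (mul_eq_zero.1 h6).resolve_left hc0
          linear_combination h7
        unfold uu at h5
        split_ifs at h5 with h8
        · rcases hT h8 with h9 | h9
          · rw [h8, h9] at h5
            have := congrArg Complex.re h5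
            simp at this
          · rw [h8, h9] at h5
            have := congrArg Complex.re h5
            simp at this
        · rw [mul_one] at h5
          exact h8 h5
      · have h5 : conj (uu r m ε σ c) = -1 := by
          have h6 : c * (conj (uu r m ε σ c) + 1) = 0 := by linear_combination -h2
          have h7 := (mul_eq_zero.1 h6).resolve_left hc0
          linear_combination h7
        unfold uu at h5
        split_ifs at h5 with h8
        · rcases hT h8 with h9 | h9
          · rw [h9] at h5
            have := congrArg Complex.re h5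
            simp at this
          · rw [h9] at h5
            have := congrArg Complex.re h5
            simp at this
        · rw [map_one] at h5
          norm_num at h5
      · have h5 : (2 : ℂ) * c = 0 := by linear_combination -h2
        exact hc0 ((mul_eq_zero.1 h5).resolve_left two_ne_zero)
    · intro hj
      refine ⟨by omega, ?_⟩
      unfold ww
      rw [if_pos hj]
  rw [e, card_range]

end Pool.Agent.Q284.SZ
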