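import Pool.Agent.Q284.SL.Fin

/-!
# Project SZ: the final statement with a selection of the pattern polynomial which depends on the free coefficients
-/

set_option autoImplicit false

open Finset Polynomial ComplexConjugate
open Pool.Agent.H341R2.Sharp (Mon mem_Mon)

namespace Pool.Agent.Q284.SZ

open Pool.Agent.Q284.PS (Prim Hay CM PD PI qq mem_PI norm_le_one Place absPow Nice Tempered
  RankinSelbergConverges hay_cm)
open Pool.Agent.Q284.PX (SelfDual AF ef Ls gen_nice ef_zero absPow_eq norm_z)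
open Pool.Agent.Q284.GE
open Pool.Agent.Q284.SL

/-- the polynomial `A` of the free coefficients -/
structure Adm (h : ℕ) (δ : ℝ) (A : ℂ[X]) : Prop where
  zero : A.coeff 0 = 1
  deg : ∀ n : ℕ, h ≤ 2 * n → A.coeff n = 0
  ne : ∀ z : ℂ, ‖z‖ ≤ 1 → A.eval z ≠ 0
  der : ∀ z : ℂ, ‖z‖ = 1 → ‖z * A.derivative.eval z‖ ≤ δ / 4 * h * ‖A.eval z‖

/-- the power sums of the conjugate character -/
theorem ps_conj {F : Type} [Field F] [Fintype F] {ι : Type} (p : ι → F[X] → (ι → ℝ) → ℕ → ℝ) (a : F[X] → ι → ℝ)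
    (i : ι) (χ : F[X] → ℂ) (m : ℕ) : conj (ps p a i χ m) = ps p a i (fun f => conj (χ f)) m := by
  unfold ps
  rw [map_div₀, map_sum, map_pow, Complex.conj_ofReal]
  congr 1
  refine sum_congr rfl fun P _ => ?_
  rw [map_mul, map_mul, map_natCast, Complex.conj_ofReal, map_pow]

/-- the statement with a selection `U χ A` of the pattern polynomial -/
def SelStm : Prop := ∀ (n r : ℕ) (δ : ℝ), 4 ≤ n → 1 ≤ r → 0 < δ → δ ≤ 1 → ∃ M₀ : ℕ, 3 ≤ M₀ ∧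
  ∀ (F : Type) [Field F] [Fintype F] (ν M : ℕ), 9 ≤ ν → M₀ ≤ M →
  ∀ (h ρ : (F[X] → ℂ) → ℕ) (ε : (F[X] → ℂ) → ℂ) (U : (F[X] → ℂ) → ℂ[X] → ℂ[X]),
  (∀ (Q : F[X]) (l : ℕ) (χ : F[X] → ℂ), Prim Q l χ →
    ν * (Q.natDegree + max M (l + 1) - 2) ≤ h χ ∧ h (fun f => conj (χ f)) = h χ) →
  (∀ χ, 1 ≤ ρ χ ∧ ρ χ ≤ r ∧ ρ (fun f => conj (χ f)) = ρ χ) →
  (∀ χ, ‖ε χ‖ = 1) →
  (∀ χ A, Adm (h χ) δ A → Uni (ρ χ) (ε χ) (U χ A)) →
  (∀ χ A, U (fun f => conj (χ f)) (A.map (starRingEnd ℂ)) = (U χ A).map (starRingEnd ℂ)) →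
  ∃ α : F[X] → Fin n → ℂ, Tempered α ∧ SelfDual α ∧
    (∀ P : F[X], P.Monic → Irreducible P →
      ‖∑ j, α P j‖ ≤ (Fintype.card F : ℝ) ^ (-(9 / 10 * (1 / 2 - 4 / (ν : ℝ)) * P.natDegree))) ∧
    ∀ (Q : F[X]) (l : ℕ) (χ : F[X] → ℂ), Prim Q l χ → ∃ A : ℂ[X], Adm (h χ) δ A ∧
      ((fun f => conj (χ f)) = χ → A.map (starRingEnd ℂ) = A) ∧
      Uni (ρ χ * h χ) (ε χ) (pat (ρ χ) (h χ) (U χ A) A) ∧
      Nice (Fintype.card F) (ρ χ * h χ) (ε χ) (fun s => (pat (ρ χ) (h χ) (U χ A) A).eval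
        ((Real.sqrt (Fintype.card F) : ℂ) * (Fintype.card F : ℂ) ^ (-s))) ∧
      ∀ s : ℂ, 1 - 9 / 10 * (1 / 2 - 4 / (ν : ℝ)) < s.re →
        HasProd (fun P : Place F => ∏ j, (1 - α P.1 j * (χ P.1 * absPow P.1 s))⁻¹)
          ((pat (ρ χ) (h χ) (U χ A) A).eval ((Real.sqrt (Fintype.card F) : ℂ) * (Fintype.card F : ℂ) ^ (-s)))

theorem t_sel (hGENS : GENS) (hEXP2 : S_EXP2) (hNUM2 : S_NUM2) (hTGT : S_TGT) (hPAT : S_PAT) (hPLO : S_PLO)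
    (hNPW : S_NPW) (hLFB : S_LFB) (hLGD : S_LGD) (hM : PX.S_AFM) (hEUL : PS.S_EUL)
    (hDSUM : PS.S_DSUM) (hMAS : S_MAS) (hEUC : S_EUC) (hPSG : S_PSG) : SelStm := by
  classical
  intro n r δ hn hr hδ hδ1
  have hn0 : (4 : ℝ) ≤ n := by exact_mod_cast hn
  have hK : ((n - 1 : ℕ) : ℝ) = (n : ℝ) - 1 := by
    rw [Nat.cast_sub (by omega)]
    push_cast
    ring
  have hpar : Par (1 / 2) n 0 (n - 1) := by
    refine ⟨by norm_num, by positivity, le_rfl, by omega, ?_⟩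
    rw [hK]
    linarith
  have hκ := kap_pos hpar
  set κ : ℝ := kap 0 (n - 1) with hκd
  obtain ⟨M₁, hM1, hGENS⟩ := hGENS (1 / 2) n 0 (n - 1) hpar (r + 1) (by omega)
  obtain ⟨M₂, hM2, hNUM2⟩ := hNUM2 n κ δ (by positivity) hκ (min_le_left _ _) hδ
  refine ⟨max M₁ M₂ + (r + 1), by omega, ?_⟩
  intro F _ _ ν M' hν hM' h ρ ε U hh hρ hε hU hUc
  obtain ⟨M, rfl⟩ : ∃ M, M' = M + (r + 1) := ⟨M' - (r + 1), by omega⟩
  have hMM1 : M₁ ≤ M := by have := le_max_left M₁ M₂; omega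
  have hMM2 : M₂ ≤ M := by have := le_max_right M₁ M₂; omega
  have hq2 := two_le_qq (F := F)
  have hq0 : 0 < qq F := by linarith
  -- the local data
  have hex : ∀ x : ℝ, ∃ α : Fin n → ℂ, |x| ≤ 1 / 2 → (∀ j, ‖α j‖ = 1) ∧ ∏ j, α j = 1 ∧
      (∀ w : ℂ, ∏ j, (1 - conj (α j) * w) = ∏ j, (1 - α j * w)) ∧
      (∀ k : ℕ, 1 ≤ k → k ≤ n - 2 → ∑ j, α j ^ k = ((x ^ k : ℝ) : ℂ)) ∧ ∀ k : ℕ, (∑ j, α j ^ k).im = 0 := by
    intro x
    by_cases hx : |x| ≤ 1 / 2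
    · obtain ⟨α, h1⟩ := hLFB n (by omega) x hx
      exact ⟨α, fun _ => h1⟩
    · exact ⟨fun _ => 1, fun h' => absurd h' hx⟩
  choose A hA using hex
  let p : Unit → F[X] → (Unit → ℝ) → ℕ → ℝ := fun _ _ x k => (∑ j, A (x ()) j ^ k).re
  have hreal : ∀ (x : ℝ), |x| ≤ 1 / 2 → ∀ k : ℕ, ∑ j, A x j ^ k = (((∑ j, A x j ^ k).re : ℝ) : ℂ) := by
    intro x hx k
    apply Complex.ext
    · rw [Complex.ofReal_re]
    · rw [Complex.ofReal_im]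
      exact (hA x hx).2.2.2.2 k
  have hsmall : ∀ (x : ℝ), |x| ≤ 1 / 2 → ∀ k : ℕ, 1 ≤ k → k ≤ n - 2 → (∑ j, A x j ^ k).re = x ^ k := by
    intro x hx k hk1 hk2
    rw [(hA x hx).2.2.2.1 k hk1 hk2, Complex.ofReal_re]
  have hnorm : ∀ (x : ℝ), |x| ≤ 1 / 2 → ∀ k : ℕ, |(∑ j, A x j ^ k).re| ≤ n := by
    intro x hx k
    refine (Complex.abs_re_le_norm _).trans ((norm_sum_le _ _).trans ?_)
    have : ∀ j ∈ (univ : Finset (Fin n)), ‖A x j ^ k‖ ≤ 1 := by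
      intro j _
      rw [norm_pow, (hA x hx).1 j, one_pow]
    refine (sum_le_sum this).trans ?_
    simp
  have hloc : Loc F Unit (1 / 2) n 0 (n - 1) p := by
    refine ⟨?_, ?_, ?_⟩
    · intro i P x _ _ hx
      show (∑ j, A (x ()) j ^ 1).re = x i
      rw [hsmall (x ()) (hx ()) 1 le_rfl (by omega), pow_one]
    · intro i P x k t _ _ ht hx h2 h3
      have hx1 : |x ()| ≤ 1 / 2 := (hx ()).trans ht
      show |(∑ j, A (x ()) j ^ k).re| ≤ n * t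
      rw [hsmall (x ()) hx1 k (by omega) (by omega), abs_pow]
      have ht0 : 0 ≤ t := (abs_nonneg _).trans (hx ())
      calc |x ()| ^ k ≤ |x ()| ^ 1 := pow_le_pow_of_le_one (abs_nonneg _) (by linarith) (by omega)
        _ = |x ()| := pow_one _
        _ ≤ t := hx ()
        _ ≤ n * t := by nlinarith
    · intro i P x k _ _ hx _
      rw [zero_mul, Real.rpow_zero, mul_one]
      exact hnorm (x ()) (hx ()) k
  let γ : (i : Unit) → F[X] → (Unit → ℝ) → Fin n → ℂ := fun _ _ x j => A (x ()) j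
  have hγ : ∀ (i : Unit) (P : F[X]) (x : Unit → ℝ), P.Monic → Irreducible P → (∀ j, |x j| ≤ 1 / 2) →
      (∀ y, ‖γ i P x y‖ ≤ qq F ^ ((0 : ℝ) * P.natDegree)) ∧
        ∀ k : ℕ, 1 ≤ k → ∑ y, γ i P x y ^ k = (p i P x k : ℂ) := by
    intro i P x _ _ hx
    constructor
    · intro y
      rw [zero_mul, Real.rpow_zero]
      exact ((hA (x ()) (hx ())).1 y).le
    · intro k _
      exact hreal (x ()) (hx ()) k
  -- the rule
  let Φ : Unit → (F[X] → ℂ) → (ℕ → ℂ) → ℂ[X] := fun _ χ s =>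
    pat (ρ χ) (h χ) (U χ (tre (ρ χ) (h χ) s)) (tre (ρ χ) (h χ) s)
  have hpos : ∀ (Q : F[X]) (l : ℕ) (χ : F[X] → ℂ), Prim Q l χ → 1 ≤ h χ := by
    intro Q l χ hχ
    refine le_trans ?_ (hh Q l χ hχ).1
    have h1 := le_max_left (M + (r + 1)) (l + 1)
    have : 9 * 1 ≤ ν * (Q.natDegree + max (M + (r + 1)) (l + 1) - 2) := Nat.mul_le_mul hν (by omega)
    omega
  have hAA : ∀ (Q : F[X]) (l : ℕ) (χ : F[X] → ℂ) (s : ℕ → ℂ), Prim Q l χ →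
      (∀ m : ℕ, 1 ≤ m → 2 * m < h χ → ‖s m‖ ≤ Lm (qq F) ν M (Q.natDegree + l) m + Rm (qq F) n κ M m) →
      Adm (h χ) δ (tre (ρ χ) (h χ) s) ∧
      (∀ n : ℕ, 1 ≤ n → 2 * n < h χ → (n : ℂ) * (tre (ρ χ) (h χ) s).coeff n =
        ∑ m ∈ Icc 1 n, (s m / (ρ χ : ℕ)) * (tre (ρ χ) (h χ) s).coeff (n - m)) := by
    intro Q l χ s hχ hs
    have hdeg := (hh Q l χ hχ).1
    have h1 : ν * (Q.natDegree + l - 1) ≤ h χ := by
      refine le_trans (Nat.mul_le_mul_left ν ?_) hdeg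
      have := le_max_right (M + (r + 1)) (l + 1)
      omega
    have h2 : ν * (M - 2) ≤ h χ := by
      refine le_trans (Nat.mul_le_mul_left ν ?_) hdeg
      have := le_max_left (M + (r + 1)) (l + 1)
      omega
    obtain ⟨a1, a2, a3, a4, a5⟩ := exA hEXP2 (hρ χ).1 hq2 hκ hδ hδ1 (hpos Q l χ hχ)
      (fun x hx => hNUM2 M hMM2 (qq F) ν hq2 hν (Q.natDegree + l) (h χ) h1 h2 x hx) hs
    exact ⟨⟨a1, a2, a3, a5⟩, a4⟩
  have huni : ∀ (Q : F[X]) (l : ℕ) (χ : F[X] → ℂ) (s : ℕ → ℂ), Prim Q l χ →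
      (∀ m : ℕ, 1 ≤ m → 2 * m < h χ → ‖s m‖ ≤ Lm (qq F) ν M (Q.natDegree + l) m + Rm (qq F) n κ M m) →
      Uni (ρ χ * h χ) (ε χ) (pat (ρ χ) (h χ) (U χ (tre (ρ χ) (h χ) s)) (tre (ρ χ) (h χ) s)) := by
    intro Q l χ s hχ hs
    obtain ⟨a1, a4⟩ := hAA Q l χ s hχ hs
    exact hPAT (ρ χ) (h χ) _ _ _ (hρ χ).1 (hpos Q l χ hχ) (hε χ) (hU χ _ a1) a1.zero a1.deg a1.ne
  have hΦ : Rule F Unit (r + 1) n κ ν M (fun _ => h) Φ := by
    refine ⟨?_, ?_, ?_⟩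
    · intro i χ s s' hs
      show pat (ρ χ) (h χ) (U χ (tre (ρ χ) (h χ) s)) (tre (ρ χ) (h χ) s) =
        pat (ρ χ) (h χ) (U χ (tre (ρ χ) (h χ) s')) (tre (ρ χ) (h χ) s')
      rw [tre_congr hs]
    · intro i Q l χ s hχ
      show pat (ρ (fun f => conj (χ f))) (h (fun f => conj (χ f)))
        (U (fun f => conj (χ f)) (tre (ρ (fun f => conj (χ f))) (h (fun f => conj (χ f))) (fun m => conj (s m))))
        (tre (ρ (fun f => conj (χ f))) (h (fun f => conj (χ f))) (fun m => conj (s m))) = _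
      rw [(hh Q l χ hχ).2, (hρ χ).2.2, tre_conj, hUc, pat_conj]
    · intro i Q l χ s hχ hs
      have hu := huni Q l χ s hχ hs
      obtain ⟨a1, a4⟩ := hAA Q l χ s hχ hs
      refine ⟨hu.zero, ?_, ?_⟩
      · intro k hk1 hk2
        show (k : ℂ) * (pat (ρ χ) (h χ) (U χ (tre (ρ χ) (h χ) s)) (tre (ρ χ) (h χ) s)).coeff k =
          ∑ m ∈ Icc 1 k, s m * (pat (ρ χ) (h χ) (U χ (tre (ρ χ) (h χ) s)) (tre (ρ χ) (h χ) s)).coeff (k - m)
        rw [hPLO (ρ χ) (h χ) _ _ (hU χ _ a1).zero k hk2, hNPW (ρ χ) (h χ) _ s (hρ χ).1 a4 k hk1 hk2]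
        apply sum_congr rfl
        intro m hm
        rw [mem_Icc] at hm
        rw [hPLO (ρ χ) (h χ) _ _ (hU χ _ a1).zero (k - m) (by omega)]
      · obtain ⟨_, s', h6, h7⟩ := hTGT _ _ _ hu
        refine ⟨s', ?_, h7⟩
        intro m hm
        refine (h6 m hm).trans ?_
        push_cast
        have h8 : (0 : ℝ) ≤ h χ := Nat.cast_nonneg _
        have h9 : ((ρ χ : ℕ) : ℝ) ≤ r := by exact_mod_cast (hρ χ).2.1
        nlinarith
  have hdeg : Deg F Unit ν (M + (r + 1)) (fun _ => h) :=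
    ⟨fun _ Q l χ hχ => (hh Q l χ hχ).1, fun _ Q l χ hχ => (hh Q l χ hχ).2⟩
  obtain ⟨a, ha, hmain⟩ := hGENS F Unit p hloc ν M hν hMM1 (fun _ => h) hdeg Φ hΦ
  have har : ∀ P : F[X], P.Monic → Irreducible P → |a P ()| ≤ 1 / 2 := fun P h1 h2 => (ha P () h1 h2).1
  refine ⟨fun P => A (a P ()), ?_, ?_, ?_, ?_⟩
  · intro P h1 h2
    exact ⟨(hA _ (har P h1 h2)).1, (hA _ (har P h1 h2)).2.1⟩
  · intro P h1 h2
    exact (hA _ (har P h1 h2)).2.2.1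
  · intro P h1 h2
    have h3 := (hA _ (har P h1 h2)).2.2.2.1 1 le_rfl (by omega)
    simp only [pow_one] at h3
    rw [h3, Complex.norm_real, Real.norm_eq_abs]
    refine (ha P () h1 h2).2.trans ?_
    have h5 : 0 ≤ qq F ^ (-(9 / 10 * GE.eta ν * P.natDegree)) := by positivity
    have h6 : 1 / 2 * qq F ^ (-(9 / 10 * GE.eta ν * P.natDegree)) ≤ qq F ^ (-(9 / 10 * GE.eta ν * P.natDegree)) := by
      linarith
    exact h6
  · intro Q l χ hχ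
    obtain ⟨hfree, hN⟩ := hmain () Q l χ hχ
    have hu := huni Q l χ (ps p a () χ) hχ hfree
    obtain ⟨a1, a4⟩ := hAA Q l χ (ps p a () χ) hχ hfree
    obtain ⟨n1, n2⟩ := euler_newt hLGD hM hEUL hDSUM hMAS hEUC hPSG hpar (by norm_num) hloc hγ ha (i := ()) hχ
      (hε χ) hu hN
    refine ⟨tre (ρ χ) (h χ) (ps p a () χ), a1, ?_, hu, n1, ?_⟩
    · intro hc
      rw [← tre_conj]
      congr 1
      funext m
      rw [ps_conj, hc]
    intro s hs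
    exact n2 s hs (by
      have : 4 / (ν : ℝ) ≥ 0 := by positivity
      linarith)

end Pool.Agent.Q284.SZ
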